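import Mathlib
import Pool.Agent.R365.CV.Up

set_option autoImplicit false

/-!
# Many curves with a large finite part of the height of the invariant
-/

namespace Pool.Agent.R365.ST

open NumberField IsDedekindDomain Finset
open Pool.Agent.H691R3 (fv fv_na fv_zpow Nv)
open Pool.Agent.TH876.Loc
open Pool.Agent.TH876.FH (IsPeriod FullTwo)
open Pool.Agent.Y729.AH
open Pool.Agent.Y729.FW (lp lp_nonneg lp_support)
open Pool.Agent.R365.CV

/-- the classes whose invariant has a large finite part of the height -/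
def HiF (L : Type) [Field L] [NumberField L] (c X : ℝ) : Set (Iso L) :=
  {q | ∃ E : WeierstrassCurve L, cl E = q ∧ E.Δ ≠ 0 ∧ FullTwo E ∧ cond E ≤ X ∧
    2 * Real.log (cond E) + 12 * c ≤
      ∑ᶠ v : HeightOneSpectrum (𝓞 L), lp (fv v) (E.c₄ ^ 3 / E.Δ)}

open Classical in
/-- **many classes** -/
theorem many (L : Type) [Field L] [NumberField L] : ∃ c0 C : ℝ, 0 < c0 ∧ 0 < C ∧
    ∀ X c : ℝ, 0 ≤ c → C * Real.exp (3 * c) ≤ X →
      c0 * (Real.exp (-(2 * c)) * X ^ (2 / 3 : ℝ)) ≤ ((HiF L c X).ncard : ℝ) := by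
  obtain ⟨cB, hcB, hB⟩ := sum_lp_le
  obtain ⟨t0, ht0, hcur⟩ := curve_of L
  obtain ⟨c1, C1, R0, hc1, hC1, hR0, hfam⟩ := family L
  obtain ⟨d, hd⟩ : ∃ d : ℝ, d = (Module.finrank ℚ L : ℝ) := ⟨_, rfl⟩
  have hd0 : 0 ≤ d := by rw [hd]; positivity
  obtain ⟨C6, hC6⟩ : ∃ C6 : ℝ, C6 = 3 * C1 + cB * d / 2 + Real.log t0 := ⟨_, rfl⟩
  have hlt0 : 0 ≤ Real.log t0 := Real.log_nonneg ht0
  have hC60 : 0 ≤ C6 := by rw [hC6]; positivity
  have hR00 : 0 < R0 := by linarith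
  have hlR0 : 0 ≤ Real.log R0 := Real.log_nonneg hR0
  refine ⟨c1 * Real.exp (-(Real.log t0 / 3 + 2 * C6 / 3)) / 6,
    Real.exp (3 * Real.log R0 + Real.log t0 / 2 + C6), by positivity, Real.exp_pos _, ?_⟩
  intro X c hc hX
  obtain ⟨τ, hτ⟩ : ∃ τ : ℝ, τ = 6 * c + Real.log t0 := ⟨_, rfl⟩
  have hτ0 : 0 ≤ τ := by rw [hτ]; positivity
  have hX1 : 1 ≤ X := by
    refine le_trans ?_ hX
    rw [← Real.exp_add]
    exact Real.one_le_exp (by positivity)
  have hX0 : 0 < X := by linarith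
  have hlX : 3 * Real.log R0 + τ / 2 + C6 ≤ Real.log X := by
    rw [← Real.exp_add] at hX
    have := (Real.le_log_iff_exp_le hX0).mpr hX
    rw [hτ]
    linarith
  obtain ⟨ρ, hρ⟩ : ∃ ρ : ℝ, ρ = Real.exp ((Real.log X - τ / 2 - C6) / 3) := ⟨_, rfl⟩
  have hρR : R0 ≤ ρ := by
    rw [hρ, ← Real.log_le_iff_le_exp hR00]
    linarith
  have hlρ : Real.log ρ = (Real.log X - τ / 2 - C6) / 3 := by rw [hρ, Real.log_exp]
  obtain ⟨F, hF, hFc⟩ := hfam τ ρ hτ0 hρR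
  have hne : Nonempty (WeierstrassCurve L) := ⟨EE 1 1⟩
  have hcur' : ∀ z ∈ F, ∃ (E : WeierstrassCurve L) (a b : L), E.Δ ≠ 0 ∧ Pm E a b ∧
      -(b / a) = z ∧ cond E ≤ nn (sp z \ T2 L) * t0 := fun z hz => hcur z (hF z hz).1
  choose! E a b hE1 hE2 hE3 hE4 using hcur'
  have hcond : ∀ z ∈ F, cond (E z) ≤ X ∧ cl (E z) ∈ HiF L c X := by
    intro z hz
    obtain ⟨g1, g2, g3⟩ := hF z hz
    have e : (@sdiff _ (@Finset.instSDiff _ (Classical.decEq _)) (sp z) (T2 L)) =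
          sp z \ T2 L := by congr
    rw [e] at g2
    obtain ⟨R, hR⟩ : ∃ R, R = Real.log (nn (sp z \ T2 L)) := ⟨_, rfl⟩
    rw [← hR] at g2
    have hb := hB L z g1
    rw [← hd] at hb
    have hRle : R ≤ 3 * Real.log ρ + τ / 2 + 3 * C1 + cB * d / 2 := by linarith
    have hcpos : 1 ≤ cond (E z) := (cond_bounds (hE1 z hz) (hE2 z hz)).2.2
    have hlc : Real.log (cond (E z)) ≤ R + Real.log t0 := by
      have h1 := Real.log_le_log (by linarith) (hE4 z hz)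
      rw [Real.log_mul (nn_pos _).ne' (by linarith), ← hR] at h1
      exact h1
    have hcX : cond (E z) ≤ X := by
      rw [← Real.log_le_log_iff (by linarith) hX0]
      rw [hlρ] at hRle
      rw [hC6] at hRle
      linarith
    refine ⟨hcX, ?_⟩
    refine ⟨E z, rfl, hE1 z hz, two_of_pm (hE2 z hz), hcX, ?_⟩
    rw [jj_pm (hE2 z hz), hE3 z hz]
    rw [hτ] at g2
    linarith
  have hsub : ((F.image fun z => cl (E z) : Finset (Iso L)) : Set (Iso L)) ⊆ HiF L c X := by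
    intro q hq
    rw [Finset.mem_coe, Finset.mem_image] at hq
    obtain ⟨z, hz, rfl⟩ := hq
    exact (hcond z hz).2
  have hcard := six_to_one F (fun z hz => (hF z hz).1) E (fun z hz => ⟨hE1 z hz, by
    rw [jj_pm (hE2 z hz), hE3 z hz]⟩)
  obtain ⟨C9, hC9, hup⟩ := cl2_upper L 1 one_pos
  have hfin : (HiF L c X).Finite := by
    refine (hup X hX1).1.subset ?_
    rintro q ⟨E, g1, g2, g3, g4, g5⟩
    exact ⟨E, g1, g2, g3, g4⟩
  have h3 : (F.image fun z => cl (E z)).card ≤ (HiF L c X).ncard := by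
    rw [← Set.ncard_coe_finset]
    exact Set.ncard_le_ncard hsub hfin
  have h4 : (F.card : ℝ) ≤ 6 * (HiF L c X).ncard := by exact_mod_cast hcard.trans (by omega)
  have h5 : ρ ^ 2 = X ^ (2 / 3 : ℝ) * Real.exp (-(2 * c)) *
      Real.exp (-(Real.log t0 / 3 + 2 * C6 / 3)) := by
    rw [hρ, Real.rpow_def_of_pos hX0, ← Real.exp_nat_mul, ← Real.exp_add, ← Real.exp_add, hτ]
    congr 1
    push_cast
    ring
  rw [h5] at hFc
  linarith

end Pool.Agent.R365.ST
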