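import Mathlib
import Pool.Agent.R365.ST.Low

set_option autoImplicit false

/-!
# The stable Faltings height and the conductor
-/

namespace Pool.Agent.R365.ST

open NumberField IsDedekindDomain Finset
open Pool.Agent.H691R3 (fv fv_na fv_zpow Nv)
open Pool.Agent.TH876.Loc
open Pool.Agent.TH876.FH (IsPeriod FullTwo arch faltings)
open Pool.Agent.Y729.AH
open Pool.Agent.Y729.FW (lp lp_nonneg lp_support)
open Pool.Agent.R365.CV

/-- the stable height of the Weil restriction -/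
noncomputable def sh {L : Type} [Field L] [NumberField L] (j : L)
    (τ : InfinitePlace L → UpperHalfPlane) : ℝ :=
  (∑ᶠ v : HeightOneSpectrum (𝓞 L), Real.log (max (FinitePlace.mk v j) 1) +
    ∑ w : InfinitePlace L, (w.mult : ℝ) * arch (τ w)) / 12

theorem sh_eq {L : Type} [Field L] [NumberField L] (j : L)
    (τ : InfinitePlace L → UpperHalfPlane) :
    12 * sh j τ = 12 * Module.finrank ℚ L * faltings j τ := by
  have hn : (0 : ℝ) < Module.finrank ℚ L := by exact_mod_cast Module.finrank_pos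
  unfold sh faltings
  field_simp

/-- the stable height from above -/
theorem sh_le (L : Type) [Field L] [NumberField L] : ∃ C : ℝ, 0 ≤ C ∧
    ∀ (E : WeierstrassCurve L) (a b : L) (τ : InfinitePlace L → UpperHalfPlane),
      Pm E a b → IsPeriod (E.c₄ ^ 3 / E.Δ) τ → 2 * sh (E.c₄ ^ 3 / E.Δ) τ ≤ hgt (-(b / a)) + C := by
  obtain ⟨c1, hc1, hf1⟩ := Pool.Agent.Y729.FW.fal_two
  obtain ⟨c2, hc2, hf2⟩ := Pool.Agent.Y729.FW.six_height
  refine ⟨(c1 + c2) * Module.finrank ℚ L / 6, by positivity, fun E a b τ hp hτ => ?_⟩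
  have hl0 : b / a ≠ 0 := div_ne_zero hp.2.1 hp.1
  have hl1 : b / a ≠ 1 := by
    rw [Ne, div_eq_one_iff_eq hp.1]
    exact fun h => hp.2.2.1 h.symm
  have hj : E.c₄ ^ 3 / E.Δ * ((b / a) ^ 2 * (1 - b / a) ^ 2) =
      256 * ((b / a) ^ 2 - b / a + 1) ^ 3 := by
    obtain ⟨k1, k2⟩ := pm_disc hp
    have ha := hp.1
    have hb := hp.2.1
    have hab : a - b ≠ 0 := sub_ne_zero.2 hp.2.2.1
    rw [k1, k2]
    field_simp
    ring
  have k1 := hf1 L _ τ hτ
  have k2 := (hf2 L _ _ hl0 hl1 hj).2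
  have k3 := hgt_ge hl0 hl1
  rw [← sh_eq] at k1
  linarith

/-- the stable height from below -/
theorem sh_ge (L : Type) [Field L] [NumberField L] : ∃ C : ℝ, 0 ≤ C ∧
    ∀ (E : WeierstrassCurve L) (τ : InfinitePlace L → UpperHalfPlane),
      ∑ᶠ v : HeightOneSpectrum (𝓞 L), lp (fv v) (E.c₄ ^ 3 / E.Δ) - C ≤
        12 * sh (E.c₄ ^ 3 / E.Δ) τ := by
  obtain ⟨c, hc⟩ := Pool.Agent.TH876.FH.ana.1 1 one_pos
  refine ⟨|c| * Module.finrank ℚ L, by positivity, fun E τ => ?_⟩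
  have h3 : -(|c| * Module.finrank ℚ L) ≤
      ∑ w : InfinitePlace L, (w.mult : ℝ) * arch (τ w) := by
    rw [← Pool.Agent.Y729.FW.sum_mult, Finset.mul_sum, ← Finset.sum_neg_distrib]
    refine Finset.sum_le_sum fun w _ => ?_
    have h4 := hc (τ w)
    have h5 : 0 ≤ Real.log (max ‖Pool.Agent.TH876.FH.jInv (τ w)‖ 1) :=
      Real.log_nonneg (le_max_right _ _)
    have h6 : -|c| ≤ arch (τ w) := by
      have := le_abs_self c
      have := abs_nonneg c
      by_contra hcon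
      nlinarith
    have h7 : (0 : ℝ) ≤ (w.mult : ℝ) := Nat.cast_nonneg _
    nlinarith
  have h4 : 12 * sh (E.c₄ ^ 3 / E.Δ) τ =
      ∑ᶠ v : HeightOneSpectrum (𝓞 L), lp (fv v) (E.c₄ ^ 3 / E.Δ) +
        ∑ w : InfinitePlace L, (w.mult : ℝ) * arch (τ w) := by
    unfold sh
    have : ∀ v : HeightOneSpectrum (𝓞 L), lp (fv v) (E.c₄ ^ 3 / E.Δ) =
        Real.log (max (FinitePlace.mk v (E.c₄ ^ 3 / E.Δ)) 1) := fun v => rfl
    rw [finsum_congr this]
    ring
  rw [h4]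
  linarith

/-- the classes of large stable height -/
def Up (L : Type) [Field L] [NumberField L] (t X : ℝ) : Set (Iso L) :=
  {q | ∃ (E : WeierstrassCurve L) (τ : InfinitePlace L → UpperHalfPlane), cl E = q ∧ E.Δ ≠ 0 ∧
    FullTwo E ∧ cond E ≤ X ∧ IsPeriod (E.c₄ ^ 3 / E.Δ) τ ∧
    1 / 6 * Real.log (cond E) + t ≤ sh (E.c₄ ^ 3 / E.Δ) τ}

/-- the classes of small stable height -/
def Dn (L : Type) [Field L] [NumberField L] (t X : ℝ) : Set (Iso L) :=
  {q | ∃ (E : WeierstrassCurve L) (τ : InfinitePlace L → UpperHalfPlane), cl E = q ∧ E.Δ ≠ 0 ∧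
    FullTwo E ∧ cond E ≤ X ∧ IsPeriod (E.c₄ ^ 3 / E.Δ) τ ∧
    sh (E.c₄ ^ 3 / E.Δ) τ ≤ 1 / 6 * Real.log (cond E) - t}

open Classical in
theorem log_cond_ge {L : Type} [Field L] [NumberField L] {E : WeierstrassCurve L} {a b : L}
    (hE : E.Δ ≠ 0) (hp : Pm E a b) :
    Real.log (nn (sp (-(b / a)) \ T2 L)) + (Real.log (nn (AA E ∩ sp (-(b / a)))) +
      2 * Real.log (nn (AA E \ sp (-(b / a))))) ≤ Real.log (cond E) := by
  have h := Real.log_le_log (mul_pos (nn_pos _) (mul_pos (nn_pos _) (pow_pos (nn_pos _) 2)))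
    (cond_ge hE hp)
  rw [Real.log_mul (nn_pos _).ne' (mul_pos (nn_pos _) (pow_pos (nn_pos _) 2)).ne',
    Real.log_mul (nn_pos _).ne' (pow_pos (nn_pos _) 2).ne', Real.log_pow] at h
  push_cast at h
  exact h

/-- **few classes of large stable height** -/
theorem up_count (L : Type) [Field L] [NumberField L] (s : ℝ) (hs0 : 0 ≤ s) (hs1 : s < 2) :
    ∃ C ν : ℝ, 0 < C ∧ 0 < ν ∧ ∀ X t : ℝ, 1 ≤ X →
      ((Up L t X).ncard : ℝ) ≤ C * (Real.exp (-(s * t)) + X ^ (-ν)) * X ^ (2 / 3 : ℝ) := by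
  classical
  obtain ⟨C, ν, hC, hν, h⟩ := curve_tail L (s / 6) (by positivity) (by linarith)
  obtain ⟨C1, hC1, hsh⟩ := sh_le L
  refine ⟨C * Real.exp (s / 6 * (3 * C1)), ν, by positivity, hν, fun X t hX => ?_⟩
  have hX0 : 0 < X := by linarith
  have h1 : ((Up L t X).ncard : ℝ) ≤
      C * (Real.exp (-(s / 6 * (6 * t - 3 * C1))) + X ^ (-ν)) * X ^ (2 / 3 : ℝ) := by
    refine (fin_of_bound _ _ fun Q hQ => h X (6 * t - 3 * C1) hX Q fun q hq => ?_).2
    obtain ⟨E, τ, h1, h2, h3, h4, h5, h6⟩ := hQ hq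
    obtain ⟨a, b, hp⟩ := pm_of_two h3
    refine ⟨E, a, b, h1, h2, hp, h4, ?_⟩
    have k1 := hsh E a b τ hp h5
    have k2 := log_cond_ge h2 hp
    have k3 : 0 ≤ Real.log (nn (AA E ∩ sp (-(b / a)))) := Real.log_nonneg (one_le_nn _)
    have k4 : 0 ≤ Real.log (nn (AA E \ sp (-(b / a)))) := Real.log_nonneg (one_le_nn _)
    have k5 : 6 * t - 3 * C1 ≤ 3 * hgt (-(b / a)) - Real.log (nn (sp (-(b / a)) \ T2 L)) +
          2 * Real.log (nn (AA E ∩ sp (-(b / a)))) + Real.log (nn (AA E \ sp (-(b / a)))) := by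
      linarith
    convert k5
  refine h1.trans ?_
  have e1 : Real.exp (-(s / 6 * (6 * t - 3 * C1))) =
      Real.exp (s / 6 * (3 * C1)) * Real.exp (-(s * t)) := by
    rw [← Real.exp_add]
    congr 1
    ring
  have e2 : 1 ≤ Real.exp (s / 6 * (3 * C1)) := Real.one_le_exp (by positivity)
  have e3 : 0 < X ^ (-ν) := by positivity
  rw [e1]
  refine mul_le_mul_of_nonneg_right ?_ (by positivity)
  rw [mul_assoc]
  refine mul_le_mul_of_nonneg_left ?_ hC.le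
  nlinarith

/-- **few classes of small stable height** -/
theorem dn_count (L : Type) [Field L] [NumberField L] (s : ℝ) (hs0 : 0 ≤ s) (hs1 : s < 1) :
    ∃ C ν : ℝ, 0 < C ∧ 0 < ν ∧ ∀ X t : ℝ, 1 ≤ X →
      ((Dn L t X).ncard : ℝ) ≤ C * (Real.exp (-(s * t)) + X ^ (-ν)) * X ^ (2 / 3 : ℝ) := by
  classical
  obtain ⟨C, ν, hC, hν, h⟩ := curve_tail L (s / 3) (by positivity) (by linarith)
  obtain ⟨C1, hC1, hsh⟩ := sh_ge L
  refine ⟨C * Real.exp (s / 3 * (C1 / 4)), ν, by positivity, hν, fun X t hX => ?_⟩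
  have hX0 : 0 < X := by linarith
  have h1 : ((Dn L t X).ncard : ℝ) ≤
      C * (Real.exp (-(s / 3 * (3 * t - C1 / 4))) + X ^ (-ν)) * X ^ (2 / 3 : ℝ) := by
    refine (fin_of_bound _ _ fun Q hQ => h X (3 * t - C1 / 4) hX Q fun q hq => ?_).2
    obtain ⟨E, τ, h1, h2, h3, h4, h5, h6⟩ := hQ hq
    obtain ⟨a, b, hp⟩ := pm_of_two h3
    refine ⟨E, a, b, h1, h2, hp, h4, ?_⟩
    have hPt : Pt (-(b / a)) := (sp_iff hp.1 hp.2.1 hp.2.2.1).1
    have k1 := hsh E τ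
    rw [jj_pm hp] at k1 h6
    have k2 := sum_lp_ge hPt ∅ (fun _ => 0) (fun v hv => absurd hv (Finset.notMem_empty v))
    rw [Finset.sum_empty, mul_zero, add_zero] at k2
    obtain ⟨-, k3, -⟩ := cond_bounds h2 hp
    have k4 : 0 ≤ Real.log (nn (AA E ∩ sp (-(b / a)))) := Real.log_nonneg (one_le_nn _)
    have k5 : Real.log (nn (AA E)) = Real.log (nn (AA E ∩ sp (-(b / a)))) +
        Real.log (nn (AA E \ sp (-(b / a)))) := by
      rw [← Real.log_mul (nn_pos _).ne' (nn_pos _).ne',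
        ← nn_union (Finset.disjoint_sdiff_inter _ _).symm, iu_sdiff]
    have k6 : Real.log (nn (sp (-(b / a)) \ T2 L)) ≤ 3 * hgt (-(b / a)) := by
      have e1 := Pool.Agent.Y728.AK.rad_le_three hPt
      have e2 : Real.log (nn (sp (-(b / a)) \ T2 L)) ≤ Real.log (nn (sp (-(b / a)))) :=
        Real.log_le_log (nn_pos _) (nn_mono Finset.sdiff_subset)
      linarith
    have k7 : 3 * t - C1 / 4 ≤ 3 * hgt (-(b / a)) - Real.log (nn (sp (-(b / a)) \ T2 L)) +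
          2 * Real.log (nn (AA E ∩ sp (-(b / a)))) + Real.log (nn (AA E \ sp (-(b / a)))) := by
      linarith
    convert k7
  refine h1.trans ?_
  have e1 : Real.exp (-(s / 3 * (3 * t - C1 / 4))) =
      Real.exp (s / 3 * (C1 / 4)) * Real.exp (-(s * t)) := by
    rw [← Real.exp_add]
    congr 1
    ring
  have e2 : 1 ≤ Real.exp (s / 3 * (C1 / 4)) := Real.one_le_exp (by positivity)
  have e3 : 0 < X ^ (-ν) := by positivity
  rw [e1]
  refine mul_le_mul_of_nonneg_right ?_ (by positivity)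
  rw [mul_assoc]
  refine mul_le_mul_of_nonneg_left ?_ hC.le
  nlinarith

/-- **many classes of large stable height** -/
theorem up_lower (L : Type) [Field L] [NumberField L] : ∃ c0 C : ℝ, 0 < c0 ∧ 0 < C ∧
    ∀ X t : ℝ, 0 ≤ t → C * Real.exp (3 * t) ≤ X →
      c0 * (Real.exp (-(2 * t)) * X ^ (2 / 3 : ℝ)) ≤ ((Up L t X).ncard : ℝ) := by
  classical
  obtain ⟨c0, C, hc0, hC, h⟩ := many L
  obtain ⟨C1, hC1, hsh⟩ := sh_ge L
  obtain ⟨C2, hC2, hsharp⟩ := cl2_sharp L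
  refine ⟨c0 * Real.exp (-(C1 / 6)), max 1 (C * Real.exp (C1 / 4)), by positivity, by positivity,
    fun X t ht hX => ?_⟩
  have e0 : 1 ≤ Real.exp (3 * t) := Real.one_le_exp (by positivity)
  have hX1 : 1 ≤ X := by
    refine le_trans ?_ hX
    have := le_max_left 1 (C * Real.exp (C1 / 4))
    nlinarith
  have h1 := h X (t + C1 / 12) (by positivity) (by
    refine le_trans ?_ hX
    have e1 : Real.exp (3 * (t + C1 / 12)) = Real.exp (C1 / 4) * Real.exp (3 * t) := by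
      rw [← Real.exp_add]
      congr 1
      ring
    rw [e1, ← mul_assoc]
    exact mul_le_mul_of_nonneg_right (le_max_right _ _) (by positivity))
  have e2 : Real.exp (-(2 * (t + C1 / 12))) = Real.exp (-(C1 / 6)) * Real.exp (-(2 * t)) := by
    rw [← Real.exp_add]
    congr 1
    ring
  rw [e2] at h1
  have hfin : (Up L t X).Finite := by
    refine (hsharp X hX1).1.subset ?_
    rintro q ⟨E, τ, g1, g2, g3, g4, g5, g6⟩
    exact ⟨E, g1, g2, g3, g4⟩
  have h2 : (HiF L (t + C1 / 12) X).ncard ≤ (Up L t X).ncard := by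
    refine Set.ncard_le_ncard ?_ hfin
    rintro q ⟨E, g1, g2, g3, g4, g5⟩
    obtain ⟨τ, hτ⟩ := exists_period (E.c₄ ^ 3 / E.Δ)
    refine ⟨E, τ, g1, g2, g3, g4, hτ, ?_⟩
    have := hsh E τ
    linarith
  have h3 : ((HiF L (t + C1 / 12) X).ncard : ℝ) ≤ (Up L t X).ncard := by exact_mod_cast h2
  calc _ = c0 * (Real.exp (-(C1 / 6)) * Real.exp (-(2 * t)) * X ^ (2 / 3 : ℝ)) := by ring
    _ ≤ _ := h1.trans h3

/-- all classes -/
theorem sh_all (L : Type) [Field L] [NumberField L] : ∃ c C X₀ : ℝ, 0 < c ∧ ∀ X : ℝ, X₀ ≤ X →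
    (Cl2 L X).Finite ∧ c * X ^ (2 / 3 : ℝ) ≤ ((Cl2 L X).ncard : ℝ) ∧
      ((Cl2 L X).ncard : ℝ) ≤ C * X ^ (2 / 3 : ℝ) := by
  obtain ⟨C, hC, hup⟩ := cl2_sharp L
  obtain ⟨c, X0, hc, hX0, hlo⟩ := cl2_lower_sharp L
  exact ⟨c, C, X0, hc, fun X hX => ⟨(hup X (hX0.trans hX)).1, hlo X hX, (hup X (hX0.trans hX)).2⟩⟩

end Pool.Agent.R365.ST
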